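import Pool.Agent.TH612.GS.Stm3
import Pool.Agent.TH753.GS.GL2

set_option autoImplicit false

namespace Pool.Agent.TH352.GF

open Complex MeasureTheory Set
open Pool.Agent.TH612.GS
open Pool.Agent.TH753.GS

noncomputable section

variable {k : ℕ}

theorem lint_eval (l : Fin k) (f : ℝ → ENNReal) (hf : Measurable f) (T : ℝ) (hT : 0 ≤ T) :
    ∫⁻ β, f (β l) ∂(mP (Fin k) T) =
      ENNReal.ofReal (T ^ (k - 1)) * ∫⁻ y in Icc 0 T, f y := by
  have h1 : ∫⁻ β, f (β l) ∂(mP (Fin k) T) =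
      ∫⁻ y, f y ∂((mP (Fin k) T).map (Function.eval l)) :=
    (lintegral_map hf (measurable_pi_apply l)).symm
  rw [h1]
  unfold mP
  rw [Measure.pi_map_eval, lintegral_smul_measure]
  congr 1
  rw [Finset.prod_const, Finset.card_erase_of_mem (Finset.mem_univ l), Finset.card_univ,
    Fintype.card_fin, Measure.restrict_apply_univ, Real.volume_Icc, sub_zero,
    ENNReal.ofReal_pow hT]

theorem lint_ofReal (g : ℝ → ℝ) (hg : Continuous g) (h0 : ∀ y, 0 ≤ g y) (T : ℝ) (hT : 0 ≤ T) :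
    ∫⁻ y in Icc 0 T, ENNReal.ofReal (g y) = ENNReal.ofReal (∫ y in (0:ℝ)..T, g y) := by
  rw [intervalIntegral.integral_of_le hT, ← integral_Icc_eq_integral_Ioc,
    ofReal_integral_eq_lintegral_ofReal]
  · exact (hg.integrableOn_Icc)
  · exact Filter.Eventually.of_forall h0

/-- the Dirichlet polynomial in one shift -/
def DP (m M : ℕ) (v a : ℝ) (y : ℝ) : ℂ :=
  zN M (1 + (-(1 / 4) + I * v) + I * (a - y)) ^ m

theorem DP_norm (m M : ℕ) (v a y : ℝ) :
    ‖DP m M v a y‖ = ‖∑ P ∈ Finset.Icc 1 (M ^ m),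
      (starRingEnd ℂ) (cc m M v P * (P : ℂ) ^ (-(I * a))) * (P : ℂ) ^ (-(I * y))‖ := by
  rw [← RCLike.norm_conj (∑ P ∈ Finset.Icc 1 (M ^ m),
      (starRingEnd ℂ) (cc m M v P * (P : ℂ) ^ (-(I * a))) * (P : ℂ) ^ (-(I * y)))]
  congr 1
  unfold DP zN
  rw [zN_pow, map_sum]
  refine Finset.sum_congr rfl fun P hP => ?_
  rw [Finset.mem_Icc] at hP
  have hP0 : (P : ℂ) ≠ 0 := by
    have : P ≠ 0 := by omega
    exact_mod_cast this
  have harg : (P : ℂ).arg ≠ Real.pi := by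
    rw [natCast_arg]
    exact Real.pi_ne_zero.symm
  have e : (starRingEnd ℂ) (-(I * (y : ℂ))) = I * y := by
    simp
  have e3 : (starRingEnd ℂ) ((P : ℂ) ^ (-(I * (y : ℂ)))) = (P : ℂ) ^ (I * (y : ℂ)) := by
    have h := Complex.cpow_conj (P : ℂ) (-(I * (y : ℂ))) harg
    rw [Complex.conj_natCast, e] at h
    exact h.symm
  rw [map_mul, Complex.conj_conj, cc, e3]
  rw [mul_assoc, mul_assoc, ← cpow_add _ _ hP0, ← cpow_add _ _ hP0]
  congr 2
  ring

theorem DP_cont (m M : ℕ) (v a : ℝ) : Continuous (DP m M v a) := by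
  unfold DP zN
  refine Continuous.pow (continuous_finsetSum _ fun n hn => ?_) m
  rw [Finset.mem_Icc] at hn
  have hn0 : (n : ℂ) ≠ 0 := by
    have : n ≠ 0 := by omega
    exact_mod_cast this
  refine Continuous.const_cpow ?_ (Or.inl hn0)
  fun_prop

theorem DP_int (hMV : S_MV) {m : ℕ} (hm : 1 ≤ m) : ∃ C : ℝ, 0 < C ∧ ∀ (T : ℝ) (M : ℕ) (v a : ℝ),
    1 ≤ T → (M : ℝ) ^ m ≤ T → ∫ y in (0:ℝ)..T, ‖DP m M v a y‖ ^ 2 ≤ C * T := by
  obtain ⟨C1, hC1, h⟩ := hMV
  obtain ⟨C0, hC0, hC⟩ := cc_sq hm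
  refine ⟨C1 * (2 * C0), by positivity, ?_⟩
  intro T M v a hT hM
  have hX : ((M ^ m : ℕ) : ℝ) ≤ T ^ 2 := by
    push_cast
    nlinarith
  have h1 := h T (M ^ m) (fun P => (starRingEnd ℂ) (cc m M v P * (P : ℂ) ^ (-(I * a)))) hT hX
  have h2 : ∫ y in (0:ℝ)..T, ‖DP m M v a y‖ ^ 2 ≤ ∫ y in (0:ℝ)..(2 * T), ‖DP m M v a y‖ ^ 2 := by
    refine intervalIntegral.integral_mono_interval (le_refl 0) (by linarith) (by linarith)
      (Filter.Eventually.of_forall fun y => by positivity) ?_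
    exact ((DP_cont m M v a).norm.pow 2).intervalIntegrable _ _
  refine h2.trans ?_
  have h3 : ∫ y in (0:ℝ)..(2 * T), ‖DP m M v a y‖ ^ 2 = ∫ y in (0:ℝ)..(2 * T),
      ‖∑ P ∈ Finset.Icc 1 (M ^ m), (starRingEnd ℂ) (cc m M v P * (P : ℂ) ^ (-(I * a))) *
        (P : ℂ) ^ (-(I * y))‖ ^ 2 := by
    refine intervalIntegral.integral_congr fun y _ => ?_
    show ‖DP m M v a y‖ ^ 2 = _
    rw [DP_norm]
  rw [h3]
  refine h1.trans ?_
  rw [mul_assoc]
  refine mul_le_mul_of_nonneg_left ?_ hC1.le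
  have h4 : ∑ n ∈ Finset.Icc 1 (M ^ m), (T + n) *
      ‖(starRingEnd ℂ) (cc m M v n * (n : ℂ) ^ (-(I * a)))‖ ^ 2 ≤
      ∑ n ∈ Finset.Icc 1 (M ^ m), (2 * T) * ‖cc m M v n‖ ^ 2 := by
    refine Finset.sum_le_sum fun n hn => ?_
    rw [Finset.mem_Icc] at hn
    have e : ‖(starRingEnd ℂ) (cc m M v n * (n : ℂ) ^ (-(I * a)))‖ = ‖cc m M v n‖ := by
      rw [RCLike.norm_conj, norm_mul, norm_natCast_cpow_of_pos (by omega)]
      simp
    rw [e]
    have hn2 : (n : ℝ) ≤ T := by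
      have : (n : ℝ) ≤ ((M ^ m : ℕ) : ℝ) := by exact_mod_cast hn.2
      push_cast at this
      linarith
    refine mul_le_mul_of_nonneg_right (by linarith) (by positivity)
  refine h4.trans ?_
  rw [← Finset.mul_sum]
  have h5 := hC M (M ^ m) v
  nlinarith

theorem t_GL3 (hMV : S_MV) : S_GL3 := by
  intro k α
  rcases Nat.eq_zero_or_pos k with hk | hk
  · -- `k = 0`
    subst hk
    refine ⟨Pool.Agent.TH612.CF.BF 0 (1 / 8) ^ 2 + 1, by positivity, ?_⟩
    intro T M v _ _ hT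
    have hT0 : 0 < T := by linarith
    have h1 : ∀ β : Fin 0 → ℝ, ENNReal.ofReal (‖GM M (gab α β) (-(1 / 4) + I * v)‖ ^ 2) ≤
        ENNReal.ofReal (Pool.Agent.TH612.CF.BF 0 (1 / 8) ^ 2 + 1) := by
      intro β
      apply ENNReal.ofReal_le_ofReal
      have h2 : ‖GM M (gab α β) (-(1 / 4) + I * v)‖ ≤ Pool.Agent.TH612.CF.BF 0 (1 / 8) := by
        unfold GM
        simp only [Finset.univ_eq_empty, Finset.prod_empty, mul_one]
        exact Pool.Agent.TH612.CF.FH_le (by norm_num) (fun j => j.elim0)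
      have h3 := pow_le_pow_left₀ (norm_nonneg _) h2 2
      linarith
    refine (lintegral_mono h1).trans ?_
    rw [lintegral_const]
    have h4 : (mP (Fin 0) T) univ = 1 := by
      unfold mP
      rw [Measure.pi_univ]
      simp
    rw [h4]
    simp
  -- `k ≥ 1`
  have hne : Nonempty (Fin k × Fin k) := ⟨⟨0, hk⟩, ⟨0, hk⟩⟩
  obtain ⟨m, hm⟩ : ∃ m : ℕ, m = k ^ 2 := ⟨_, rfl⟩
  have hcard : Fintype.card (Fin k × Fin k) = m := by
    rw [Fintype.card_prod, Fintype.card_fin, hm, sq]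
  have hm1 : 1 ≤ m := by rw [hm]; exact Nat.one_le_pow _ _ hk
  obtain ⟨C0, hC0, hC⟩ := DP_int hMV hm1
  refine ⟨Pool.Agent.TH612.CF.BF k (1 / 8) ^ 2 * (m * C0) + 1, by positivity, ?_⟩
  intro T M v hM hMT hT
  have hT0 : 0 < T := by linarith
  have hMm : (M : ℝ) ^ m ≤ T := by
    have hM1 : (1 : ℝ) ≤ M := by exact_mod_cast hM
    have h1 : (M : ℝ) ^ m ≤ (M : ℝ) ^ (3 * k ^ 2) := by
      refine pow_le_pow_right₀ hM1 ?_
      rw [hm]
      omega
    have h2 : 0 ≤ (M : ℝ) ^ (3 * k ^ 2) := by positivity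
    linarith
  have hpt : ∀ β : Fin k → ℝ, ENNReal.ofReal (‖GM M (gab α β) (-(1 / 4) + I * v)‖ ^ 2) ≤
      ENNReal.ofReal (Pool.Agent.TH612.CF.BF k (1 / 8) ^ 2) * ∑ p : Fin k × Fin k,
        ENNReal.ofReal (‖DP m M v (α p.1) (β p.2)‖ ^ 2) := by
    intro β
    rw [← ENNReal.ofReal_sum_of_nonneg (fun p _ => by positivity),
      ← ENNReal.ofReal_mul (by positivity)]
    apply ENNReal.ofReal_le_ofReal
    unfold GM
    rw [norm_mul, mul_pow]
    have h1 : ‖Pool.Agent.TH612.CF.FH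
        (fun j => (gab α β (Sum.inl j) : ℂ) - I * (-(1 / 4) + I * v) / 2)
        (fun j => (gab α β (Sum.inr j) : ℂ) + I * (-(1 / 4) + I * v) / 2)‖ ≤
        Pool.Agent.TH612.CF.BF k (1 / 8) := by
      refine Pool.Agent.TH612.CF.FH_le (by norm_num) (fun j => ?_)
      constructor
      · have : (((gab α β (Sum.inl j) : ℝ) : ℂ) - I * (-(1 / 4) + I * v) / 2).im = 1 / 8 := by
          simp
          norm_num
        rw [this]
        norm_num
      · have : (((gab α β (Sum.inr j) : ℝ) : ℂ) + I * (-(1 / 4) + I * v) / 2).im = -(1 / 8) := by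
          simp
          norm_num
        rw [this]
        norm_num
    have h2 : ‖∏ j : Fin k, ∏ l : Fin k, zN M (1 + (-(1 / 4) + I * v) +
        I * (gab α β (Sum.inl j) - gab α β (Sum.inr l)))‖ ^ 2 ≤ ∑ p : Fin k × Fin k,
        ‖DP m M v (α p.1) (β p.2)‖ ^ 2 := by
      have h3 := prod_le_sum_pow (fun p : Fin k × Fin k =>
        ‖zN M (1 + (-(1 / 4) + I * v) + I * (α p.1 - β p.2))‖ ^ 2)
        (fun p => by positivity)
      rw [hcard] at h3
      have e1 : ‖∏ j : Fin k, ∏ l : Fin k, zN M (1 + (-(1 / 4) + I * v) +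
        I * (gab α β (Sum.inl j) - gab α β (Sum.inr l)))‖ ^ 2 = ∏ p : Fin k × Fin k,
        ‖zN M (1 + (-(1 / 4) + I * v) + I * (α p.1 - β p.2))‖ ^ 2 := by
        rw [Finset.prod_pow, ← norm_prod, Fintype.prod_prod_type]
        rfl
      rw [e1]
      refine h3.trans (le_of_eq (Finset.sum_congr rfl fun p _ => ?_))
      unfold DP
      rw [norm_pow, ← pow_mul, ← pow_mul, Nat.mul_comm]
    exact mul_le_mul (pow_le_pow_left₀ (norm_nonneg _) h1 2) h2 (by positivity) (by positivity)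
  refine (lintegral_mono hpt).trans ?_
  have hme : ∀ p : Fin k × Fin k, Measurable fun y : ℝ =>
      ENNReal.ofReal (‖DP m M v (α p.1) y‖ ^ 2) := fun p =>
    (((DP_cont m M v (α p.1)).norm.pow 2).measurable).ennreal_ofReal
  have hme2 : ∀ p : Fin k × Fin k, Measurable fun β : Fin k → ℝ =>
      ENNReal.ofReal (‖DP m M v (α p.1) (β p.2)‖ ^ 2) := fun p =>
    (hme p).comp (measurable_pi_apply p.2)
  rw [lintegral_const_mul _ (Finset.measurable_sum _ fun p _ => hme2 p),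
    lintegral_finsetSum _ fun p _ => hme2 p]
  have hb : ∀ p : Fin k × Fin k, ∫⁻ β, ENNReal.ofReal (‖DP m M v (α p.1) (β p.2)‖ ^ 2)
      ∂(mP (Fin k) T) ≤ ENNReal.ofReal (C0 * T ^ k) := by
    intro p
    rw [lint_eval p.2 (fun y => ENNReal.ofReal (‖DP m M v (α p.1) y‖ ^ 2)) (hme p) T hT0.le,
      lint_ofReal (fun y => ‖DP m M v (α p.1) y‖ ^ 2) ((DP_cont m M v (α p.1)).norm.pow 2)
        (fun y => by positivity) T hT0.le,
      ← ENNReal.ofReal_mul (by positivity)]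
    apply ENNReal.ofReal_le_ofReal
    have h1 := hC T M v (α p.1) (by linarith) hMm
    have h8 : T ^ k = T * T ^ (k - 1) := by
      rw [← pow_succ']
      congr 1
      omega
    rw [h8]
    have h9 : 0 ≤ T ^ (k - 1) := by positivity
    calc T ^ (k - 1) * ∫ y in (0:ℝ)..T, ‖DP m M v (α p.1) y‖ ^ 2 ≤ T ^ (k - 1) * (C0 * T) :=
          mul_le_mul_of_nonneg_left h1 h9
      _ = C0 * (T * T ^ (k - 1)) := by ring
  refine (mul_le_mul_right (Finset.sum_le_sum fun p _ => hb p) _).trans ?_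
  rw [Finset.sum_const, Finset.card_univ, hcard, nsmul_eq_mul, ← ENNReal.ofReal_natCast,
    ← ENNReal.ofReal_mul (by positivity), ← ENNReal.ofReal_mul (by positivity)]
  apply ENNReal.ofReal_le_ofReal
  have : 0 ≤ T ^ k := by positivity
  nlinarith

end

end Pool.Agent.TH352.GF
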